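import Pool.Agent.Helper45.LGB.St

/-!
# Project LGB, MODULE PPS: the induction step
-/

set_option autoImplicit false

namespace Pool.Agent.Helper81.LGB

open Pool.Agent.Helper45.LGB

theorem hPPS (hPKU : StPKU) (hPKN : StPKN) (hLST : StLST) (hMJD : StMJD) (hSTP : StSTP) :
    StPPS := by
  intro p m r q _ hm hPP ι E V _ _ f Y W W' hctx u hu hpk w hw
  set ρ : ℕ := 2 * ((r + 1) * (2 * ((m + 1) * (m * q + 1)) - 1) + 2 * r + 1) with hρ
  obtain ⟨-, k2, -, -, k5⟩ := hPKU ι E
  cases u with
  | nil =>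
    exfalso
    obtain ⟨P, hP1, hP2, -⟩ := hpk
    have hne : P.Nonempty := by
      rw [← Finset.card_pos, hP1]
      omega
    obtain ⟨a, ha⟩ := hne
    have := hP2 a ha
    simp [ltr] at this
  | cons x u' =>
    have hx : x ∈ Y := hu x List.mem_cons_self
    have hu' : ∀ i ∈ u', i ∈ Y := fun i hi => hu i (List.mem_cons_of_mem _ hi)
    have hpk' : Pk E ρ ((q + 1) * (q + 2)) (ltr u') := by
      have h1 := k5 ρ ((q + 1) * (q + 2)) (ltr (x :: u')) x hpk
      refine k2 ρ _ _ _ _ h1 le_rfl ?_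
      rintro i ⟨hi, hix⟩
      rcases List.mem_cons.1 (show i ∈ x :: u' from hi) with h | h
      · exact absurd h hix
      · exact h
    obtain ⟨us, hlen, hfl, hus⟩ := hPKN ι E ρ (q + 2) q u' hpk'
    obtain ⟨-, -, -, m4, m5, -, -⟩ := hMJD p m r q hm hPP ι E V f Y W W' x w hctx hx hw
    obtain ⟨-, -, -, -, -, l6, -, -, -⟩ := hLST p ι V f Y
    have key : ∀ (vs : List (List ι)) (j : ℕ), vs.length + j = q + 1 →
        (∀ v ∈ vs, Pk E ρ (q + 2) (ltr v) ∧ ∀ i ∈ v, i ∈ Y) →
        ∀ z ∈ Mj E f Y W' r x w j, act f vs.flatten z ∈ Mj E f Y W' r x w (q + 1) := by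
      intro vs
      induction vs with
      | nil =>
        intro j hj _ z hz
        have hj' : j = q + 1 := by simpa using hj
        rw [List.flatten_nil]
        show z ∈ _
        rw [← hj']
        exact hz
      | cons v vs ih =>
        intro j hj hv z hz
        rw [List.length_cons] at hj
        rw [List.flatten_cons, l6]
        refine ih (j + 1) (by omega) (fun v' hv' => hv v' (List.mem_cons_of_mem _ hv')) _ ?_
        obtain ⟨h1, h2⟩ := hv v List.mem_cons_self
        exact hSTP p m r q hm hPP ι E V f Y W W' x w hctx hx hw j v (by omega) h2 h1 z hz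
    have hfin := key us 0 (by omega) (fun v hv => ⟨hus v hv, fun i hi => hu' i (by
      rw [hfl]
      exact List.mem_flatten.2 ⟨v, hv, hi⟩)⟩) (f x w) m5
    rw [← hfl] at hfin
    exact m4 hfin

end Pool.Agent.Helper81.LGB
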